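import Pool.Agent.H66.S.INV

/-!
# MP_9d0bb7_lc, board sgt_modules: row HFI
-/

open scoped Classical

namespace Pool.Agent.H66.S

open Set Pool.Agent.H78.S

theorem aff_zero {L : Type} [Field L] [Infinite L] (a b c : L)
    (h : ∀ x : L, x ≠ 0 → x ≠ 1 → x ≠ c → a - x * b = 0) : a = 0 ∧ b = 0 := by
  have hinf : (({0, 1, c} : Set L)ᶜ).Infinite := (Set.toFinite _).infinite_compl
  obtain ⟨x, hx⟩ := hinf.nonempty
  obtain ⟨y, hy⟩ := (hinf.diff (Set.finite_singleton x)).nonempty
  simp only [Set.mem_compl_iff, Set.mem_insert_iff, Set.mem_singleton_iff, not_or] at hx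
  simp only [Set.mem_diff, Set.mem_compl_iff, Set.mem_insert_iff, Set.mem_singleton_iff,
    not_or] at hy
  have h1 := h x hx.1 hx.2.1 hx.2.2
  have h2 := h y hy.1.1 hy.1.2.1 hy.1.2.2
  have h3 : (y - x) * b = 0 := by linear_combination h1 - h2
  have hb : b = 0 := by
    rcases mul_eq_zero.1 h3 with h4 | h4
    · exact absurd (sub_eq_zero.1 h4) hy.2
    · exact h4
  subst hb
  refine ⟨by linear_combination h1, rfl⟩

theorem pf_HFI : T_HFI := by
  intro K L _ _ _ g h hsurj hgh hFE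
  have hg : ∀ u, g u = u := by
    intro u
    obtain ⟨k, rfl⟩ := hsurj u
    have h1 := hgh k
    rw [map_inv, mul_inv_eq_one] at h1
    exact h1
  refine ⟨hg, ?_⟩
  set H : K → L := ext0 h with hH
  have H0 : H 0 = 0 := ext0_zero h
  have H1 : H 1 = 1 := ext0_one h
  have Hne : ∀ x, x ≠ 0 → H x ≠ 0 := ext0_ne h
  have Hmul : ∀ x y, H (x * y) = H x * H y := ext0_mul h
  have FE : ∀ (y : K) (x : L), y ≠ 0 → y ≠ 1 → x ≠ 0 → x ≠ 1 → x ≠ (H y)⁻¹ →
      (1 - x * H y) * H (1 - y⁻¹) = 1 - (1 - x) * H (1 - y) := by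
    intro y x hy hy1 hx hx1 hx2
    have e1 : (1 : K) - y ≠ 0 := sub_ne_zero.2 (Ne.symm hy1)
    have e2 : (1 : K) - y⁻¹ ≠ 0 := by
      intro h0
      apply hy1
      have : y⁻¹ = 1 := (sub_eq_zero.1 h0).symm
      exact inv_eq_one.1 this
    have e3 : (1 : L) - x ≠ 0 := sub_ne_zero.2 (Ne.symm hx1)
    have e4 : (1 : L) - x * H y ≠ 0 := by
      intro h0
      apply hx2
      exact eq_inv_of_mul_eq_one_left (sub_eq_zero.1 h0).symm
    have h3 := hFE (Units.mk0 y hy) (Units.mk0 (1 - y) e1) (Units.mk0 (1 - y⁻¹) e2)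
      (Units.mk0 x hx) (Units.mk0 (1 - x) e3) (Units.mk0 (1 - x * H y) e4)
      (by simp) (by simp) (by simp) (by
        rw [hg, Units.val_mk0, Units.val_mk0, hH, ext0_mk h y hy])
    rw [hg, hg, ← ext0_unit, ← ext0_unit, Units.val_mk0, Units.val_mk0, Units.val_mk0,
      Units.val_mk0] at h3
    exact h3
  have FE2 : ∀ y : K, y ≠ 0 → y ≠ 1 → H (1 - y⁻¹) = 1 - H (1 - y) ∧
      H y * H (1 - y⁻¹) = -H (1 - y) := by
    intro y hy hy1
    obtain ⟨ha, hb⟩ := aff_zero (H (1 - y⁻¹) - 1 + H (1 - y)) (H y * H (1 - y⁻¹) + H (1 - y))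
      (H y)⁻¹ (by
        intro x hx hx1 hx2
        have h1 := FE y x hy hy1 hx hx1 hx2
        linear_combination h1)
    exact ⟨by linear_combination ha, by linear_combination hb⟩
  have Hm1 : H (-1) = -1 := by
    obtain ⟨y, hy0, hy1⟩ : ∃ y : K, y ≠ 0 ∧ y ≠ 1 := by
      obtain ⟨l, hl⟩ := (Set.toFinite ({0, 1} : Set L)).infinite_compl.nonempty
      simp only [Set.mem_compl_iff, Set.mem_insert_iff, Set.mem_singleton_iff, not_or] at hl
      obtain ⟨u, hu⟩ := hsurj (Units.mk0 l hl.1)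
      refine ⟨u, u.ne_zero, fun h1 => hl.2 ?_⟩
      have hu1 : u = 1 := Units.ext h1
      rw [hu1, map_one] at hu
      have := congrArg Units.val hu
      simpa using this.symm
    have h1 := (FE2 y hy0 hy1).2
    rw [← Hmul] at h1
    have e : y * (1 - y⁻¹) = -1 * (1 - y) := by
      field_simp
      ring
    rw [e, Hmul] at h1
    have hne : H (1 - y) ≠ 0 := Hne _ (sub_ne_zero.2 (Ne.symm hy1))
    apply mul_right_cancel₀ hne
    linear_combination h1
  let T : K → L := fun y => (H y)⁻¹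
  have T0 : T 0 = 0 := by simp [T, H0]
  have T1 : T 1 = 1 := by simp [T, H1]
  have Tmul : ∀ x y, T (x * y) = T x * T y := by
    intro x y
    simp only [T, Hmul, mul_inv]
  have Tneg : ∀ x, T (-x) = -T x := by
    intro x
    simp only [T]
    rw [← neg_one_mul, Hmul, Hm1, neg_one_mul, inv_neg]
  have Tone : ∀ y, T (1 - y) = 1 - T y := by
    intro y
    by_cases hy : y = 0
    · rw [hy, sub_zero, T1, T0, sub_zero]
    by_cases hy1 : y = 1
    · rw [hy1, sub_self, T0, T1, sub_self]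
    obtain ⟨h1, h2⟩ := FE2 y hy hy1
    have hne : H (1 - y) ≠ 0 := Hne _ (sub_ne_zero.2 (Ne.symm hy1))
    have hney : H y ≠ 0 := Hne _ hy
    simp only [T]
    field_simp
    rw [h1] at h2
    linear_combination h2
  have Tadd : ∀ a b, T (a + b) = T a + T b := by
    intro a b
    by_cases ha : a = 0
    · rw [ha, zero_add, T0, zero_add]
    have e : a + b = a * (1 - -(b / a)) := by
      field_simp
      ring
    have e2 : T b = T a * T (b / a) := by
      rw [← Tmul]
      congr 1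
      field_simp
    rw [e, Tmul, Tone, Tneg, e2]
    ring
  let θ : K →+* L :=
    { toFun := T
      map_one' := T1
      map_mul' := Tmul
      map_zero' := T0
      map_add' := Tadd }
  have hθ : Function.Bijective θ := by
    refine ⟨θ.injective, fun l => ?_⟩
    by_cases hl : l = 0
    · exact ⟨0, by rw [hl]; exact T0⟩
    · obtain ⟨u, hu⟩ := hsurj (Units.mk0 l⁻¹ (inv_ne_zero hl))
      refine ⟨u, ?_⟩
      change (H u)⁻¹ = l
      rw [hH, ext0_unit, hu, Units.val_mk0, inv_inv]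
  refine ⟨RingEquiv.ofBijective θ hθ, fun u => ?_⟩
  rw [RingEquiv.ofBijective_apply]
  change (h u : L) = ((H u)⁻¹)⁻¹
  rw [hH, ext0_unit, inv_inv]

end Pool.Agent.H66.S
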