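import Pool.Agent.H78.S.TA

/-!
# MP_9d0bb7_lc, board sgt_modules: row INV
-/

open scoped Classical

namespace Pool.Agent.H66.S

open Set Pool.Agent.H78.S

/-- the extension of a homomorphism of the groups of units by zero -/
noncomputable def ext0 {K L : Type} [Field K] [Field L] (φ : Kˣ →* Lˣ) (x : K) : L :=
  if h : x ≠ 0 then (φ (Units.mk0 x h) : L) else 0

section ext0

variable {K L : Type} [Field K] [Field L] (φ : Kˣ →* Lˣ)

theorem ext0_zero : ext0 φ 0 = 0 := by simp [ext0]

theorem ext0_unit (u : Kˣ) : ext0 φ (u : K) = (φ u : L) := by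
  unfold ext0
  rw [dif_pos u.ne_zero, Units.mk0_val]

theorem ext0_mk (x : K) (h : x ≠ 0) : ext0 φ x = (φ (Units.mk0 x h) : L) := by
  unfold ext0
  rw [dif_pos h]

theorem ext0_ne (x : K) (h : x ≠ 0) : ext0 φ x ≠ 0 := by
  rw [ext0_mk φ x h]
  exact Units.ne_zero _

theorem ext0_one : ext0 φ 1 = 1 := by
  have := ext0_unit φ 1
  simpa using this

theorem ext0_mul (x y : K) : ext0 φ (x * y) = ext0 φ x * ext0 φ y := by
  by_cases hx : x = 0
  · subst hx
    rw [zero_mul, ext0_zero, zero_mul]
  by_cases hy : y = 0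
  · subst hy
    rw [mul_zero, ext0_zero, mul_zero]
  rw [ext0_mk φ x hx, ext0_mk φ y hy, ext0_mk φ (x * y) (mul_ne_zero hx hy), Units.mk0_mul x y
    (mul_ne_zero hx hy), map_mul, Units.val_mul]

theorem ext0_inv (x : K) : ext0 φ x⁻¹ = (ext0 φ x)⁻¹ := by
  by_cases hx : x = 0
  · subst hx
    rw [inv_zero, ext0_zero, inv_zero]
  refine eq_inv_of_mul_eq_one_left ?_
  rw [← ext0_mul, inv_mul_cancel₀ hx, ext0_one]

theorem ext0_div (x y : K) : ext0 φ (x / y) = ext0 φ x / ext0 φ y := by
  rw [div_eq_mul_inv, ext0_mul, ext0_inv, ← div_eq_mul_inv]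

end ext0

theorem pf_INV : T_INV := by
  intro K _ φ hφ hFE
  set F : K → K := ext0 φ with hF
  have F0 : F 0 = 0 := ext0_zero φ
  have F1 : F 1 = 1 := ext0_one φ
  have Fne : ∀ x, x ≠ 0 → F x ≠ 0 := ext0_ne φ
  have Fmul : ∀ x y, F (x * y) = F x * F y := ext0_mul φ
  have Fdiv : ∀ x y, F (x / y) = F x / F y := ext0_div φ
  have FF : ∀ x, F (F x) = x := by
    intro x
    by_cases hx : x = 0
    · rw [hx, F0, F0]
    · have h1 : F x = (φ (Units.mk0 x hx) : K) := ext0_mk φ x hx
      rw [h1, hF, ext0_unit, hφ, Units.val_mk0]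
  have Finj : ∀ x y, F x = F y → x = y := by
    intro x y h
    rw [← FF x, h, FF]
  have FE : ∀ x, x ≠ 0 → x ≠ 1 → F (1 - F x) = 1 - F (1 - x) := by
    intro x hx hx1
    have h1 : (1 : K) - x ≠ 0 := sub_ne_zero.2 (Ne.symm hx1)
    have h2 : (1 : K) - F x ≠ 0 := by
      intro h
      apply hx1
      apply Finj
      rw [F1]
      exact (sub_eq_zero.1 h).symm
    have h3 := hFE (Units.mk0 x hx) (Units.mk0 (1 - F x) h2) (Units.mk0 (1 - x) h1)
      (by rw [Units.val_mk0, hF, ext0_mk φ x hx]) (by rw [Units.val_mk0, Units.val_mk0])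
    rw [← ext0_unit, ← ext0_unit, Units.val_mk0, Units.val_mk0] at h3
    exact h3
  have Fm1 : F (-1) = -1 := by
    have h1 : F (-1) * F (-1) = 1 := by
      rw [← Fmul]
      norm_num
      exact F1
    rcases mul_self_eq_one_iff.1 h1 with h | h
    · have h2 : (-1 : K) = 1 := Finj _ _ (by rw [h, F1])
      rw [h, h2]
    · exact h
  have Fneg : ∀ x, F (-x) = -F x := by
    intro x
    rw [← neg_one_mul, Fmul, Fm1, neg_one_mul]
  have key0 : ∀ A B, A ≠ 0 → B ≠ 0 → A ≠ B → A * F (A - B) + F (F A - F B) * F A = A * F A := by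
    intro A B hA hB hAB
    have hu0 : F (B / A) ≠ 0 := Fne _ (div_ne_zero hB hA)
    have hu1 : F (B / A) ≠ 1 := by
      intro h
      have h2 : B / A = 1 := Finj _ _ (by rw [h, F1])
      rw [div_eq_one_iff_eq hA] at h2
      exact hAB h2.symm
    have h1 := FE _ hu0 hu1
    rw [FF] at h1
    have hFA := Fne A hA
    have e1 : (1 : K) - B / A = (A - B) / A := by field_simp
    have e2 : (1 : K) - F (B / A) = (F A - F B) / F A := by
      rw [Fdiv]
      field_simp
    rw [e1, e2, Fdiv, Fdiv, FF] at h1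
    field_simp at h1
    linear_combination h1
  have key : ∀ A B, A ≠ 0 → B ≠ 0 → A ≠ B → F (A - B) * (A / F A - B / F B) = A + B := by
    intro A B hA hB hAB
    have h1 := key0 A B hA hB hAB
    have h2 := key0 B A hB hA (Ne.symm hAB)
    have e1 : F (B - A) = -F (A - B) := by rw [← Fneg, neg_sub]
    have e2 : F (F B - F A) = -F (F A - F B) := by rw [← Fneg, neg_sub]
    rw [e1, e2] at h2
    have hFA := Fne A hA
    have hFB := Fne B hB
    field_simp
    linear_combination F B * h1 + F A * h2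
  suffices h : ∀ x : K, x ≠ 0 → F x = x⁻¹ by
    intro u
    apply Units.ext
    rw [← ext0_unit, Units.val_inv_eq_inv_val]
    exact h _ u.ne_zero
  by_cases h2 : (2 : K) = 0
  · -- characteristic 2
    intro A hA
    have hneg : ∀ x : K, -x = x := by
      intro x
      have : 2 * x = 0 := by rw [h2, zero_mul]
      linear_combination -this
    have hlam : ∀ A B, A ≠ 0 → B ≠ 0 → A ≠ B → A / F A ≠ B / F B := by
      intro A B hA hB hAB h
      have h3 := key A B hA hB hAB
      rw [h, sub_self, mul_zero] at h3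
      apply hAB
      have : A = -B := by linear_combination -h3
      rw [this, hneg]
    by_contra hne
    have hFA := Fne A hA
    have h3 : A / F A ≠ A * A := by
      intro h
      apply hne
      field_simp at h
      have : F A * A = 1 := by
        apply mul_left_cancel₀ hA
        linear_combination -A * h
      exact eq_inv_of_mul_eq_one_left this
    apply hlam (A / F A) (A * A) (div_ne_zero hA hFA) (mul_ne_zero hA hA) h3
    rw [Fdiv, FF, Fmul]
    field_simp
  · intro u hu
    by_cases h1 : u = 1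
    · rw [h1, F1, inv_one]
    by_cases hm1 : u = -1
    · rw [hm1, Fm1]
      norm_num
    have h3 : (1 : K) - u ≠ 0 := sub_ne_zero.2 (Ne.symm h1)
    have h4 : (1 : K) + u ≠ 0 := by
      intro h
      apply hm1
      linear_combination h
    set A : K := (1 + u) / (1 - u) with hAd
    have hA : A ≠ 0 := div_ne_zero h4 h3
    have hAm : A - 1 = 2 * u / (1 - u) := by
      rw [hAd]
      field_simp
      ring
    have hAp : A + 1 = 2 / (1 - u) := by
      rw [hAd]
      field_simp
      ring
    have hAm0 : A - 1 ≠ 0 := by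
      rw [hAm]
      exact div_ne_zero (mul_ne_zero h2 hu) h3
    have hAp0 : A + 1 ≠ 0 := by
      rw [hAp]
      exact div_ne_zero h2 h3
    have k1 := key A 1 hA one_ne_zero (sub_ne_zero.1 hAm0)
    have k2 := key A (-1) hA (neg_ne_zero.2 one_ne_zero) (by
      intro h
      apply hAp0
      rw [h]
      ring)
    rw [F1, div_one] at k1
    rw [Fm1, neg_div_neg_eq, div_one, sub_neg_eq_add] at k2
    have hr : (A - 1) / (A + 1) = u := by
      rw [hAm, hAp]
      field_simp
    have hl : A / F A - 1 ≠ 0 := by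
      intro h
      rw [h, mul_zero] at k1
      exact hAp0 k1.symm
    rw [← hr, Fdiv]
    have hFp := Fne _ hAp0
    have hFm := Fne _ hAm0
    rw [inv_div]
    rw [div_eq_div_iff hFp hAm0]
    apply mul_right_cancel₀ hl
    linear_combination (A - 1) * k1 - (A + 1) * k2

end Pool.Agent.H66.S
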