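import Pool.Agent.H78.S.T6
import Pool.Agent.H6.BCP.SLG
import Pool.Agent.H74.BCP.BGN

/-!
# MP_9d0bb7_lc, board sgt_modules: row PSI
-/

open scoped Classical

namespace Pool.Agent.H66.S

open Set Pool.Agent.H77.BC Matrix Pool.Agent.H78.S
open scoped Pointwise

theorem perm_pair {n : ℕ} (i j a b : Fin n) (hij : i ≠ j) (hab : a ≠ b) :
    ∃ σ : Equiv.Perm (Fin n), σ i = a ∧ σ j = b := by
  have h1 : Equiv.swap j b i ≠ b := by
    intro h
    apply hij
    have h2 : Equiv.swap j b j = b := Equiv.swap_apply_left j b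
    exact (Equiv.swap j b).injective (h.trans h2.symm)
  refine ⟨Equiv.swap (Equiv.swap j b i) a * Equiv.swap j b, ?_, ?_⟩
  · rw [Equiv.Perm.mul_apply, Equiv.swap_apply_left]
  · rw [Equiv.Perm.mul_apply, Equiv.swap_apply_left, Equiv.swap_apply_of_ne_of_ne h1.symm hab.symm]

theorem perm_tr {K : Type} [Field K] {n : ℕ} (σ : Equiv.Perm (Fin n)) (i j a b : Fin n) (t : K)
    (hi : σ i = a) (hj : σ j = b) :
    σ.permMatrix K * transvection a b t = transvection i j t * σ.permMatrix K := by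
  rw [PEquiv.toMatrix_toPEquiv_mul, PEquiv.mul_toMatrix_toPEquiv]
  ext x y
  simp only [Matrix.submatrix_apply, transvection, Matrix.add_apply, Matrix.one_apply,
    Matrix.single_apply, id]
  have e1 : (σ x = y) ↔ (x = σ.symm y) := by
    constructor
    · rintro rfl; simp
    · rintro rfl; simp
  have e2 : (a = σ x ∧ b = y) ↔ (i = x ∧ j = σ.symm y) := by
    constructor
    · rintro ⟨h1, rfl⟩
      refine ⟨σ.injective (hi.trans h1), ?_⟩
      rw [← hj, Equiv.symm_apply_apply]
    · rintro ⟨rfl, h2⟩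
      refine ⟨hi.symm, ?_⟩
      rw [← hj, h2, Equiv.apply_symm_apply]
  simp only [e1, e2]

theorem pf_PSI : T_PSI := by
  intro G K _ _ _ m Γ hmul hinv hone hsc huniq hinj hall hperm htr
  let Im : Subgroup (GL (Fin (m + 2)) K) :=
    { carrier := {A | ∃ g, Γ g A}
      mul_mem' := by
        rintro A B ⟨g, hg⟩ ⟨h, hh⟩
        exact ⟨g * h, hmul _ _ _ _ hg hh⟩
      one_mem' := ⟨1, hone⟩
      inv_mem' := by
        rintro A ⟨g, hg⟩
        exact ⟨g⁻¹, hinv _ _ hg⟩ }
  have h10 : (1 : Fin (m + 2)) ≠ 0 := by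
    intro h
    have := congrArg Fin.val h
    simp at this
  have hSL : SLle Im := by
    refine Pool.Agent.H6.BCP.pf_SLG Pool.Agent.H74.BCP.pf_BGN Im ?_
    intro i j t hij
    obtain ⟨σ, hi, hj⟩ := perm_pair i j (1 : Fin (m + 2)) 0 hij h10
    obtain ⟨g, A, hgA, hA⟩ := hperm σ
    obtain ⟨h, B, hhB, hB⟩ := htr t
    refine ⟨A * B * A⁻¹, ⟨g * h * g⁻¹, hmul _ _ _ _ (hmul _ _ _ _ hgA hhB) (hinv _ _ hgA)⟩, ?_⟩
    have e := perm_tr σ i j 1 0 t hi hj
    rw [← hA, ← hB] at e
    have e2 : ((A * B * A⁻¹ : GL (Fin (m + 2)) K)).val =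
        A.val * B.val * (A⁻¹ : GL (Fin (m + 2)) K).val := rfl
    rw [e2, e, Matrix.mul_assoc]
    have e3 : A.val * (A⁻¹ : GL (Fin (m + 2)) K).val = 1 := by
      have := congrArg Units.val (mul_inv_cancel A)
      exact this
    rw [e3, Matrix.mul_one]
  have hex : ∀ A : SpecialLinearGroup (Fin (m + 2)) K, ∃ g, Γ g (SpecialLinearGroup.toGL A) := by
    intro A
    exact hSL _ A.2
  choose f hf using hex
  let π : SpecialLinearGroup (Fin (m + 2)) K →* G := MonoidHom.mk' f (by
    intro A B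
    have h1 := hf (A * B)
    rw [map_mul] at h1
    exact hinj _ _ _ h1 (hmul _ _ _ _ (hf A) (hf B)))
  have hπ : ∀ A, π A = f A := fun _ => rfl
  have hsurj : Function.Surjective π := by
    intro g
    obtain ⟨A, hA⟩ := hall g
    have hd : (A.val : Matrix _ _ K).det ≠ 0 := by
      have h1 : IsUnit (A.val : Matrix _ _ K) := A.isUnit
      exact ((Matrix.isUnit_iff_isUnit_det _).1 h1).ne_zero
    obtain ⟨c, hc⟩ := IsAlgClosed.exists_pow_nat_eq ((A.val : Matrix _ _ K).det)⁻¹
      (show 0 < m + 2 by omega)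
    have hc0 : c ≠ 0 := by
      rintro rfl
      rw [zero_pow (by omega)] at hc
      exact inv_ne_zero hd hc.symm
    let B : SpecialLinearGroup (Fin (m + 2)) K := ⟨c • A.val, by
      rw [Matrix.det_smul, Fintype.card_fin, hc, inv_mul_cancel₀ hd]⟩
    refine ⟨B, ?_⟩
    rw [hπ]
    exact hinj _ _ _ (hf B) (hsc g A (SpecialLinearGroup.toGL B) c hc0 hA rfl)
  have hker : π.ker = Subgroup.center (SpecialLinearGroup (Fin (m + 2)) K) := by
    ext A
    rw [MonoidHom.mem_ker, hπ, Matrix.SpecialLinearGroup.mem_center_iff]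
    constructor
    · intro h
      have h1 := hf A
      rw [h] at h1
      obtain ⟨c, hc, hc2⟩ := huniq 1 1 (SpecialLinearGroup.toGL A) hone h1
      have hA : (A.val : Matrix _ _ K) = c • (1 : Matrix _ _ K) := hc2
      refine ⟨c, ?_, ?_⟩
      · have h2 := A.2
        rw [hA, Matrix.det_smul, Matrix.det_one, mul_one] at h2
        exact h2
      · rw [hA, Matrix.scalar_apply, Matrix.smul_one_eq_diagonal]
    · rintro ⟨r, hr, hr2⟩
      have hr0 : r ≠ 0 := by
        rintro rfl
        rw [Fintype.card_fin, zero_pow (by omega)] at hr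
        exact zero_ne_one hr
      have h1 : Γ 1 (SpecialLinearGroup.toGL A) := by
        refine hsc 1 1 _ r hr0 hone ?_
        have : (A.val : Matrix _ _ K) = r • (1 : Matrix _ _ K) := by
          rw [← hr2, Matrix.scalar_apply, Matrix.smul_one_eq_diagonal]
        exact this
      exact hinj _ _ _ (hf A) h1
  exact ⟨((QuotientGroup.quotientMulEquivOfEq hker.symm).trans
    (QuotientGroup.quotientKerEquivOfSurjective π hsurj)).symm⟩

end Pool.Agent.H66.S
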